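import Pool.Agent.helper20.SOL.Spec

set_option autoImplicit false

namespace Pool.Agent.SOL

open Pool.Agent.helper54.SOG Finset

theorem LX1_decompA {n : ℕ} (x y : Vec n) (i : Fin n) (hy : y i = 0) :
    flp i x = y + flp i (x - y) := by
  funext k
  by_cases hk : k = i
  · subst hk
    simp [flp, hy]
  · simp [flp, hk]

theorem LX1_decompB {n : ℕ} (x y : Vec n) (j : Fin n) (hz : (x - y) j = 0) :
    flp j x = flp j y + (x - y) := by
  funext k
  by_cases hk : k = j
  · subst hk
    have h : x k - y k = 0 := by simpa using hz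
    simp [flp]
    omega
  · simp [flp, hk]

theorem LX1_decompC {n : ℕ} (x y : Vec n) (i : Fin n) :
    flp i x = flp i y + flp i (x - y) := by
  funext k
  by_cases hk : k = i
  · subst hk
    simp [flp]
    ring
  · simp [flp, hk]

theorem LX1_decompD {n : ℕ} (x y : Vec n) (i j : Fin n) (hij : i ≠ j) (hy : y i = 0)
    (hz : (x - y) j = 0) : flp i (flp j x) = flp j y + flp i (x - y) := by
  have hz' : x j - y j = 0 := by simpa using hz
  funext k
  by_cases hk : k = i
  · subst hk
    simp [flp, hij, hy]
  · by_cases hk' : k = j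
    · subst hk'
      simp [flp, hk]
      omega
    · simp [flp, hk, hk']

/-- additivity at a sum `u = v + w` with all three in `O` -/
theorem LX1_add {n : ℕ} {M : Type} [AddCommGroup M] {O : Set (Vec n)} {f : Vec n → M}
    (hf : AddOn O f) {u v w : Vec n} (hu : u ∈ O) (hv : v ∈ O) (hw : w ∈ O) (h : u = v + w) :
    f u = f v + f w := by
  have h1 : u - v = w := by rw [h]; abel
  have h2 := hf.add u hu v hv (by rw [h1]; exact hw)
  rw [h1] at h2
  rw [h2]
  abel

theorem LX1 (hCNT : CNT_stmt) : LX1_stmt := by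
  obtain ⟨-, -, -, hflp, -, -, -, -⟩ := hCNT
  intro n t s M _ f hf x hx y hy hz
  have e0 : f x = f y + f (x - y) := LX1_add hf hx hy hz (by abel)
  refine ⟨?_, ?_, ?_⟩
  · intro i j hij hyi hzj
    have e1 := LX1_add hf (hflp n t s x i hx) hy (hflp n t s (x - y) i hz)
      (LX1_decompA x y i hyi)
    have e2 := LX1_add hf (hflp n t s x j hx) (hflp n t s y j hy) hz (LX1_decompB x y j hzj)
    have e3 := LX1_add hf (hflp n t s _ i (hflp n t s x j hx)) (hflp n t s y j hy)
      (hflp n t s (x - y) i hz) (LX1_decompD x y i j hij hyi hzj)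
    rw [e0, e1, e2, e3]
    abel
  · intro i hzi
    have e2 := LX1_add hf (hflp n t s x i hx) (hflp n t s y i hy) hz (LX1_decompB x y i hzi)
    rw [e0, e2]
    abel
  · intro i
    have e2 := LX1_add hf (hflp n t s x i hx) (hflp n t s y i hy) (hflp n t s (x - y) i hz)
      (LX1_decompC x y i)
    rw [e0, e2]
    abel

end Pool.Agent.SOL
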